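import Pool.Agent.NDG.Sld

/-!
# Monotone solutions of the fractional Allen-Cahn equation along subspaces of codimension three, `s ≥ 1 / 2`

`E d` is `ℝ ^ d`, `Entire d s c u`: `u` is an entire solution of `(-Δ) ^ s u = u - u ^ 3`, `|u| < 1`,
with the normalising constant `c > 0` (any value), as in the problem file; `Near u p L δ`: in the ball
`B_L(p)` the solution is `δ`-close to a monotone function of one variable.

Let `1 / 2 ≤ s < 1`, let `e` be a vector and `V` a subspace with `e ∉ V` and `dim V ≥ d - 3`, and consider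
the entire solutions with `∂_e u > 0` everywhere.

(1) For all `L`, `δ`, `ε` there is a radius `R₁`, the same for all these solutions and all centres `q`, such
that for `R ≥ R₁` a set of points of `q + V` in the ball `B_R(q)` with mutual distances at least `1`, at
which the solution is not `Near`, has at most `ε R ^ dim V` elements.

(2) If the solution returns along `V` with positive upper density (for instance if it is periodic or almost
periodic in the directions of `V`) then it is one-dimensional.

For `V = 0` (`d ≤ 3`) this is the known theorem; for `d = 4` the subspace `V` is any line not parallel to `e`.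
-/

namespace Pool.Agent.Results.MP_29c1f5_an.CodimThree

open NDG

theorem result {d : ℕ} (hd : 1 ≤ d) {s c : ℝ} (hs : 1 / 2 ≤ s) (hs1 : s < 1) (hc : 0 < c)
    {V : Submodule ℝ (E d)} {e : E d} (he : e ∉ V) (hV : d ≤ Module.finrank ℝ V + 3) :
    (∀ L δ ε : ℝ, 0 < δ → 0 < ε → ∃ R₁ : ℝ, ∀ u : E d → ℝ, Entire d s c u →
      (∀ x, 0 < fderiv ℝ u x e) → ∀ q : E d, ∀ R : ℝ, R₁ ≤ R →
        ∀ P : Finset (E d), Sep P → (∀ p ∈ P, p - q ∈ V ∧ ‖p - q‖ ≤ R ∧ ¬ Near u p L δ) →
          (P.card : ℝ) ≤ ε * R ^ Module.finrank ℝ V) ∧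
    (∀ u : E d → ℝ, Entire d s c u → (∀ x, 0 < fderiv ℝ u x e) → Returns u V → OneDim u) := by
  refine ⟨fun L δ ε hδ hε => codim_three hd hs hs1 hc he hV L hδ hε, fun u hu hmon hr => ?_⟩
  refine returns_one hd hu.smooth.continuous hr fun L δ ε hδ hε => ?_
  obtain ⟨R₁, h⟩ := codim_three hd hs hs1 hc he hV L hδ hε
  exact ⟨R₁, fun q _ R hR P hP hbad => h u hu hmon q R hR P hP hbad⟩

end Pool.Agent.Results.MP_29c1f5_an.CodimThree
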