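import Pool.Agent.NDG.Pla

/-!
# Stable or monotone solutions of the fractional Allen-Cahn equation along subspaces of codimension two

`E d` is `ℝ ^ d`, `Entire d s c u`: `u` is an entire solution of `(-Δ) ^ s u = u - u ^ 3`, `|u| < 1`,
with the normalising constant `c > 0` (any value), as in the problem file; `∃ e, ∀ x, 0 < fderiv ℝ u x e`:
`u` is monotone in the direction `e`; `Stable`: nonnegative second variation; `Near u p L δ`: in the ball
`B_L(p)` the solution is `δ`-close to a monotone function of one variable.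

For all `d ≥ 1` and `s ∈ (0, 1)`:

(1) for all `L`, `δ`, `ε` there is a radius `R₁`, the same for all solutions, subspaces and centres, such
that for every stable or monotone entire solution, every subspace `V` with `dim V ≥ d - 2`, every `q` and
every `R ≥ R₁`: a set of points of `q + V` in the ball `B_R(q)` with mutual distances at least `1`, at which
the solution is not `Near`, has at most `ε R ^ dim V` elements.  So the solution is one-dimensional, up to
`δ` and on the scale `L`, at all points of the affine subspace outside a set of density zero.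

(2) If the solution returns along `V` with positive upper density (for instance if it is periodic or almost
periodic in the directions of `V`) then it is one-dimensional.

For `dim V = 0` (`d ≤ 2`) this is the known theorem.
-/

namespace Pool.Agent.Results.MP_29c1f5_an.CodimTwo

open NDG

theorem result {d : ℕ} (hd : 1 ≤ d) {s c : ℝ} (hs0 : 0 < s) (hs1 : s < 1) (hc : 0 < c) :
    (∀ L δ ε : ℝ, 0 < δ → 0 < ε → ∃ R₁ : ℝ, ∀ u : E d → ℝ, Entire d s c u →
      (Stable d s c u ∨ ∃ e : E d, ∀ x, 0 < fderiv ℝ u x e) →
      ∀ V : Submodule ℝ (E d), d ≤ Module.finrank ℝ V + 2 → ∀ q : E d, ∀ R : ℝ, R₁ ≤ R →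
        ∀ P : Finset (E d), Sep P → (∀ p ∈ P, p - q ∈ V ∧ ‖p - q‖ ≤ R ∧ ¬ Near u p L δ) →
          (P.card : ℝ) ≤ ε * R ^ Module.finrank ℝ V) ∧
    (∀ u : E d → ℝ, Entire d s c u → (Stable d s c u ∨ ∃ e : E d, ∀ x, 0 < fderiv ℝ u x e) →
      ∀ V : Submodule ℝ (E d), d ≤ Module.finrank ℝ V + 2 → Returns u V → OneDim u) := by
  have key : ∀ u : E d → ℝ, Entire d s c u → (Stable d s c u ∨ ∃ e : E d, ∀ x, 0 < fderiv ℝ u x e) →
      Stable d s c u := fun u hu h => h.elim id fun he => mono_stable hd hs0 hs1 hc hu he
  refine ⟨fun L δ ε hδ hε => ?_, fun u hu hst V hV hr => ?_⟩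
  · obtain ⟨R₁, h⟩ := planes hd hs0 hs1 hc L hδ hε
    exact ⟨R₁, fun u hu hst V hV q R hR P hP hbad => h u hu (key u hu hst) V hV q R hR P hP hbad⟩
  · refine returns_one hd hu.smooth.continuous hr fun L δ ε hδ hε => ?_
    obtain ⟨R₁, h⟩ := planes hd hs0 hs1 hc L hδ hε
    exact ⟨R₁, fun q _ R hR P hP hbad => h u hu (key u hu hst) V hV q R hR P hP hbad⟩

end Pool.Agent.Results.MP_29c1f5_an.CodimTwo
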