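import Pool.Agent.Frd.One
import Pool.Agent.NDG.Hol

/-!
# MP_29c1f5_an: rotationally symmetric monotone (or stable) entire solutions of the fractional Allen-Cahn equation

If `u` is invariant under `O(k)` acting on the first `k` coordinates, `2 ≤ k ≤ d`, and
`d - 2 - min (2s, 2-2s) < 2 √(k-1)`, then `u` does not depend on these coordinates; if moreover `d ≤ k + 2`, then `u` is
one-dimensional. In dimension 4 this covers `k = 2` and `k = 3` for every `s ∈ (0,1)`.
-/

open NDG Pool.Agent.Frd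

namespace Pool.Agent.Results.MP_29c1f5_an.RotSym

theorem result :
    ∀ (d k : ℕ) (s c : ℝ) (u : E d → ℝ), 2 ≤ k → k ≤ d → 0 < s → s < 1 → 0 < c → Entire d s c u →
      ((∃ e : E d, ∀ x, 0 < fderiv ℝ u x e) ∨ Stable d s c u) → Rot k u →
      (d : ℝ) - 2 - min (2 * s) (2 - 2 * s) < 2 * √((k : ℝ) - 1) →
      (∀ x y : E d, (∀ i : Fin d, k ≤ (i : ℕ) → x i = y i) → u x = u y) ∧ (d ≤ k + 2 → OneDim u) := by
  intro d k s c u h2 hk hs0 hs1 hc hu hm hr hcond
  have hd : 1 ≤ d := by omega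
  have hst : Stable d s c u := by
    rcases hm with ⟨e, he⟩ | hst
    · intro ψ hψ
      exact stable hd hs0 hs1 hc hu he hψ
    · exact hst
  have hH : HolU s u := by
    have h1 : s < min 1 (2 * s) := lt_min hs1 (by linarith)
    obtain ⟨a, ha1, ha2⟩ := exists_between h1
    have ha3 : a < 1 := lt_of_lt_of_le ha2 (min_le_left _ _)
    have ha4 : a < 2 * s := lt_of_lt_of_le ha2 (min_le_right _ _)
    obtain ⟨C, _, hC⟩ := holder (d := d) (s := s) (c := c) hd hs0 hs1 hc (a := a) (by linarith) ha3 ha4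
    exact ⟨a, C, ha1, ha3.le, hC u hu⟩
  exact rot_stable h2 hk hs0 hs1 hc hu hst hH hr hcond

end Pool.Agent.Results.MP_29c1f5_an.RotSym
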